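import Pool.Agent.Q181.VR.Main

set_option autoImplicit false

namespace Pool.Agent.Results.MP_f4f8d7_an.GlideReflection

open Pool.Agent.Q181.VR

/-- There is a vertically rigid function `f`, not of the form `a + b x`, such that for EVERY
`c > 0` some isometry of the plane which is neither a translation nor a reflection (not even an
involution) carries the graph of `c f` onto the graph of `f`. -/
theorem result : ∃ f : ℝ → ℝ, VerticallyRigid f ∧ (¬ ∃ a b : ℝ, ∀ x, f x = a + b * x) ∧
    ∀ c : ℝ, 0 < c → ∃ φ : Plane ≃ᵢ Plane, Carries f c φ ∧ ¬ IsTranslation φ ∧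
      ¬ Function.Involutive φ := by
  obtain ⟨f, h1, h2⟩ := main
  refine ⟨f, fun c hc => ?_, h1, fun c hc => ?_⟩
  · obtain ⟨⟨t, ht⟩, _⟩ := h2 c hc
    exact ⟨glide t 1 (by norm_num), carries _ fun x => by rw [ht]; ring⟩
  · obtain ⟨_, t, ht0, ht⟩ := h2 c hc
    exact ⟨glide t (-1) (by norm_num), carries _ (fun x => by rw [ht]; ring), not_translation,
      not_involutive _ ht0⟩

end Pool.Agent.Results.MP_f4f8d7_an.GlideReflection
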